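import Pool.Agent.BEL.StmtsP

/-!
# Squad BEL, row SHL: thin shells
-/

namespace Pool.Agent.BEL.H35

open Set Filter Topology MeasureTheory

open Classical in
theorem shl : ShlStmt := by
  intro om c C θ hmono hc hC hθ hom
  have htop : ∀ x : ℝ, ∃ k, x < om k := by
    intro x
    have h1 : Tendsto (fun n : ℕ => c * ((n : ℝ) + 1) ^ θ) atTop atTop := by
      refine Tendsto.const_mul_atTop hc ?_
      exact (tendsto_rpow_atTop hθ).comp
        (tendsto_atTop_add_const_right _ _ tendsto_natCast_atTop_atTop)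
    obtain ⟨k, hk⟩ := (h1.eventually_gt_atTop x).exists
    exact ⟨k, hk.trans_le (hom k).1⟩
  obtain ⟨N, hN1, hN2⟩ : ∃ N : ℝ → ℕ, (∀ x, x < om (N x)) ∧ ∀ x k, k < N x → om k ≤ x := by
    refine ⟨fun x => Nat.find (htop x), fun x => Nat.find_spec (htop x), fun x k hk => ?_⟩
    exact not_lt.1 (Nat.find_min (htop x) hk)
  have hNm : ∀ x y, x ≤ y → N x ≤ N y := by
    intro x y hxy
    by_contra hcon
    rw [not_le] at hcon
    have h1 := hN2 x _ hcon
    have h2 := hN1 y
    linarith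
  have hup : ∀ x, 0 ≤ x → c * (N x : ℝ) ^ θ ≤ x := by
    intro x hx
    rcases Nat.eq_zero_or_pos (N x) with h0 | h0
    · rw [h0, Nat.cast_zero, Real.zero_rpow hθ.ne', mul_zero]
      exact hx
    · have h1 := hN2 x (N x - 1) (by omega)
      have h2 := (hom (N x - 1)).1
      have h3 : ((N x - 1 : ℕ) : ℝ) + 1 = N x := by
        rw [Nat.cast_sub h0]
        simp
      rw [h3] at h2
      linarith
  obtain ⟨K0, hK0⟩ : ∃ K0 : ℝ, K0 = (2 * C / c) ^ (1 / θ) := ⟨_, rfl⟩
  have hK0pos : 0 < K0 := by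
    rw [hK0]
    positivity
  have hK0θ : K0 ^ θ = 2 * C / c := by
    rw [hK0, ← Real.rpow_mul (by positivity), one_div, inv_mul_cancel₀ hθ.ne', Real.rpow_one]
  have hdouble : ∀ x, 0 ≤ x → (N (2 * x) : ℝ) ≤ K0 * ((N x : ℝ) + 1) := by
    intro x hx
    have h1 := hup (2 * x) (by linarith)
    have h2 := (hN1 x).trans_le (hom (N x)).2
    by_contra hcon
    rw [not_le] at hcon
    have h3 : (K0 * ((N x : ℝ) + 1)) ^ θ < (N (2 * x) : ℝ) ^ θ :=
      Real.rpow_lt_rpow (by positivity) hcon hθ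
    rw [Real.mul_rpow hK0pos.le (by positivity), hK0θ] at h3
    have h4 : c * (2 * C / c * ((N x : ℝ) + 1) ^ θ) < c * (N (2 * x) : ℝ) ^ θ :=
      mul_lt_mul_of_pos_left h3 hc
    have h5 : c * (2 * C / c * ((N x : ℝ) + 1) ^ θ) = 2 * (C * ((N x : ℝ) + 1) ^ θ) := by
      field_simp
    rw [h5] at h4
    linarith
  -- the main step
  have key : ∀ i : ℕ, ∃ᶠ s : ℕ in atTop, 0 < s ∧ ∃ (t : ℕ) (w : ℝ), s ≤ t ∧
      om (s - 1) + w ≤ om t ∧ (i : ℝ) + 1 ≤ w ∧ ((t : ℝ) - s) / s ≤ 2 * K0 / ((i : ℝ) + 1) := by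
    intro i
    rw [frequently_atTop]
    intro B
    obtain ⟨L, hL⟩ : ∃ L : ℝ, L = max (om B) (((i : ℝ) + 1) ^ 2) := ⟨_, rfl⟩
    have hL1 : om B ≤ L := by
      rw [hL]
      exact le_max_left _ _
    have hL2 : ((i : ℝ) + 1) ^ 2 ≤ L := by
      rw [hL]
      exact le_max_right _ _
    have hLpos : 0 < L := lt_of_lt_of_le (by positivity) hL2
    have hNL : B < N L := by
      by_contra hcon
      rw [not_lt] at hcon
      have h1 := hN1 L
      have h2 := hmono hcon
      linarith
    obtain ⟨m, hm⟩ : ∃ m : ℕ, m = i + 1 := ⟨_, rfl⟩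
    have hmr : (m : ℝ) = (i : ℝ) + 1 := by
      rw [hm]
      push_cast
      rfl
    have hmpos : (0 : ℝ) < m := by
      rw [hmr]
      positivity
    obtain ⟨l, hl⟩ : ∃ l : ℕ → ℝ, l = fun j : ℕ => L * (1 + (j : ℝ) / m) := ⟨_, rfl⟩
    have hl0 : l 0 = L := by
      rw [hl]
      simp
    have hlm : l m = 2 * L := by
      rw [hl]
      simp only
      rw [div_self hmpos.ne']
      ring
    have hls : ∀ j, l (j + 1) = l j + L / m := by
      intro j
      rw [hl]
      simp only
      push_cast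
      field_simp
      ring
    have hlmono : ∀ j, L ≤ l j := by
      intro j
      rw [hl]
      simp only
      have : 0 ≤ L * ((j : ℝ) / m) := by positivity
      nlinarith
    have hsum : ∑ j ∈ Finset.range m, ((N (l (j + 1)) : ℝ) - N (l j)) = N (2 * L) - N L := by
      rw [Finset.sum_range_sub (fun j => (N (l j) : ℝ)), hl0, hlm]
    have hd := hdouble L hLpos.le
    have hNL1 : (1 : ℝ) ≤ N L := by
      have : 1 ≤ N L := by omega
      exact_mod_cast this
    have hex : ∃ j ∈ Finset.range m, (N (l (j + 1)) : ℝ) - N (l j) ≤ 2 * K0 * N L / m := by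
      by_contra hcon
      push Not at hcon
      have h1 : ∑ _j ∈ Finset.range m, 2 * K0 * (N L : ℝ) / m <
          ∑ j ∈ Finset.range m, ((N (l (j + 1)) : ℝ) - N (l j)) := by
        refine Finset.sum_lt_sum_of_nonempty ?_ hcon
        rw [Finset.nonempty_range_iff]
        omega
      rw [hsum, Finset.sum_const, Finset.card_range, nsmul_eq_mul, mul_div_cancel₀ _ hmpos.ne']
        at h1
      nlinarith
    obtain ⟨j, _, hj⟩ := hex
    have hNj : N L ≤ N (l j) := hNm _ _ (hlmono j)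
    have hNjr : (N L : ℝ) ≤ N (l j) := by exact_mod_cast hNj
    have hNjpos : (0 : ℝ) < N (l j) := by linarith
    refine ⟨N (l j), by omega, by omega, N (l (j + 1)), L / m, ?_, ?_, ?_, ?_⟩
    · refine hNm _ _ ?_
      rw [hls]
      have : 0 ≤ L / m := by positivity
      linarith
    · have h1 := hN2 (l j) (N (l j) - 1) (by omega)
      have h2 := hN1 (l (j + 1))
      rw [hls] at h2
      rw [hls]
      linarith
    · rw [le_div_iff₀ hmpos, hmr]
      nlinarith
    · rw [div_le_iff₀ hNjpos, ← hmr]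
      refine hj.trans ?_
      rw [div_mul_eq_mul_div]
      gcongr
  obtain ⟨s, hs, hs2⟩ := extraction_forall_of_frequently key
  choose hs0 t w hst hw hw2 hrat using hs2
  refine ⟨s, t, w, hs, hs0, hst, hw, ?_, ?_⟩
  · exact tendsto_atTop_mono hw2 (tendsto_atTop_add_const_right _ _ tendsto_natCast_atTop_atTop)
  · refine squeeze_zero (fun i => ?_) hrat ?_
    · have h1 : (s i : ℝ) ≤ t i := by exact_mod_cast hst i
      exact div_nonneg (by linarith) (Nat.cast_nonneg _)
    · exact Tendsto.div_atTop tendsto_const_nhds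
        (tendsto_atTop_add_const_right _ _ tendsto_natCast_atTop_atTop)

end Pool.Agent.BEL.H35
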